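import Pool.Agent.PFD.StmtsD3

/-! Squad PFD, block D3, row CPB: a crossed product of a free module is free. -/

set_option autoImplicit false

namespace Pool.Agent.PFD.D3.H65

open Pool.Agent.PFD Pool.Agent.PFD.D3

theorem cpb : CpbStmt := by
  intro k S E _ _ _ _ _ D _ _
  let e : (E → S) ≃ₗ[k] CP D :=
    { toFun := fun f => ⟨f⟩
      invFun := fun a => a.f
      map_add' := fun _ _ => rfl
      map_smul' := fun _ _ => rfl
      left_inv := fun _ => rfl
      right_inv := fun _ => rfl }
  exact ⟨Module.Finite.equiv e, Module.Free.of_equiv e⟩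

end Pool.Agent.PFD.D3.H65
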