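import Pool.Agent.PFD.StmtsD3

/-! Squad PFD, block D3, row RSU: restriction of the action to a stable subgroup. -/

set_option autoImplicit false

namespace Pool.Agent.PFD.D3.H65

open Pool.Agent.PFD Pool.Agent.PFD.D3

theorem rsu : RsuStmt := by
  intro V E _ _ φ W h
  have h1 : ∀ (e : E) (u : V), φ e⁻¹ (φ e u) = u := by
    intro e u
    rw [← MulAut.mul_apply, ← map_mul, inv_mul_cancel, map_one, MulAut.one_apply]
  have h2 : ∀ (e : E) (u : V), φ e (φ e⁻¹ u) = u := by
    intro e u
    rw [← MulAut.mul_apply, ← map_mul, mul_inv_cancel, map_one, MulAut.one_apply]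
  refine ⟨{ toFun := fun e =>
              { toFun := fun u => ⟨φ e u, h e u u.2⟩
                invFun := fun u => ⟨φ e⁻¹ u, h e⁻¹ u u.2⟩
                left_inv := fun u => Subtype.ext (h1 e u)
                right_inv := fun u => Subtype.ext (h2 e u)
                map_mul' := fun u v => Subtype.ext (map_mul (φ e) (u : V) v) }
            map_one' := ?_
            map_mul' := ?_ }, fun e u => rfl⟩
  · apply MulEquiv.ext
    intro u
    apply Subtype.ext
    show φ 1 (u : V) = u
    rw [map_one, MulAut.one_apply]
  · intro e f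
    apply MulEquiv.ext
    intro u
    apply Subtype.ext
    show φ (e * f) (u : V) = φ e (φ f u)
    rw [map_mul, MulAut.mul_apply]

end Pool.Agent.PFD.D3.H65
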