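import Pool.Agent.PFD.StmtsD2c

/-! Squad PFD, block D2b part 2, row CZW: relative Casimir elements of two dual families. -/

set_option autoImplicit false

open scoped BigOperators

namespace Pool.Agent.PFD.D2b.H65

open MulOpposite
open Pool.Agent.PFC.B1 (BiM FS)
open Pool.Agent.PFD.D2 Pool.Agent.PFD.D2b

theorem czw : CzwStmt := by
  intro R Γ W I I' X _ _ _ _ _ _ _ _ _ D D' z z' hom hz hz' hzz hlam β hβ
  have e1 : ∀ y, D'.lam y = D.lam (z' * y) := by
    intro y
    rw [hlam, ← mul_assoc, hzz, one_mul]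
  -- the inner sum
  have e2 : ∀ k : I', ∑ i, ∑ w, D'.lam (D'.om w⁻¹ * D'.cf' k * D.cf i) • (D.om w * D.cf' i) =
      z' * D'.cf' k := by
    intro k
    refine Eq.trans (Finset.sum_congr rfl fun i _ => ?_) (D.h2 (z' * D'.cf' k))
    refine (Equiv.sum_comp (Equiv.inv W) _).symm.trans ?_
    refine Finset.sum_congr rfl fun w _ => ?_
    rw [Equiv.inv_apply, inv_inv]
    have e3 : D'.lam (D'.om w * D'.cf' k * D.cf i) =
        D.lam (z' * D'.cf' k * (D.cf i * D.om w)) := by
      rw [e1, ← hom, show z' * (D.om w * D'.cf' k * D.cf i) =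
        (z' * D.om w) * (D'.cf' k * D.cf i) by simp only [mul_assoc], hz',
        show D.om w * z' * (D'.cf' k * D.cf i) = D.om w * (z' * D'.cf' k * D.cf i) by
          simp only [mul_assoc], D.sym]
      simp only [mul_assoc]
    rw [e3]
  have e4 : ∀ i, β (D.cf i) (D.cf' i) = ∑ k, ∑ w,
      D'.lam (D'.om w⁻¹ * D'.cf' k * D.cf i) • β (D'.cf k) (D.om w * D.cf' i) := by
    intro i
    conv_lhs => rw [← D'.h1 (D.cf i)]
    rw [map_sum, LinearMap.sum_apply]
    refine Finset.sum_congr rfl fun k _ => ?_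
    rw [map_sum, LinearMap.sum_apply]
    refine Finset.sum_congr rfl fun w _ => ?_
    rw [map_smul, LinearMap.smul_apply, ← hom w, ← hβ]
  have e5 : ∀ k, β (D'.cf k) (z' * D'.cf' k) = ∑ i, ∑ w,
      D'.lam (D'.om w⁻¹ * D'.cf' k * D.cf i) • β (D'.cf k) (D.om w * D.cf' i) := by
    intro k
    rw [← e2 k, map_sum]
    refine Finset.sum_congr rfl fun i _ => ?_
    rw [map_sum]
    exact Finset.sum_congr rfl fun w _ => map_smul _ _ _
  rw [Finset.sum_congr rfl fun i _ => e4 i, Finset.sum_comm]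
  exact Finset.sum_congr rfl fun k _ => (e5 k).symm

end Pool.Agent.PFD.D2b.H65
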