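import Pool.Agent.PFD.StmtsD2b

/-! Squad PFD, block D2b, row INX: the formula of `IsX` defines a bimodule. -/

set_option autoImplicit false

open scoped BigOperators

namespace Pool.Agent.PFD.D2b.H65

open MulOpposite
open Pool.Agent.PFC.B1 (BiM FS)
open Pool.Agent.PFD.D2 Pool.Agent.PFD.D2b

section
variable {R Γ W I Ω : Type} [CommRing R] [Ring Γ] [Algebra R Γ] [CommGroup W] [Fintype W]
    [Fintype I] [MulAction W Ω]

theorem key (D : WFS R Γ W I) (j k : I) (v : W) (γ δ : Γ) :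
    ∑ i, ∑ w, D.lam (D.om w⁻¹ * D.cf' j * γ * D.cf i) *
      D.lam (D.om (w⁻¹ * v)⁻¹ * D.cf' i * δ * D.cf k) =
      D.lam (D.om v⁻¹ * D.cf' j * (γ * δ) * D.cf k) := by
  have h := congrArg (fun z => D.lam (z * (δ * D.cf k * D.om v⁻¹))) (D.h2 (D.cf' j * γ))
  have h1 : D.lam (D.cf' j * γ * (δ * D.cf k * D.om v⁻¹)) =
      D.lam (D.om v⁻¹ * D.cf' j * (γ * δ) * D.cf k) := by
    rw [show D.cf' j * γ * (δ * D.cf k * D.om v⁻¹) = (D.cf' j * (γ * δ) * D.cf k) * D.om v⁻¹ by
      simp only [mul_assoc], D.sym]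
    simp only [mul_assoc]
  simp only [Finset.sum_mul, map_sum, smul_mul_assoc, map_smul, smul_eq_mul] at h
  rw [h1] at h
  rw [← h]
  refine Finset.sum_congr rfl fun i _ => ?_
  refine (Equiv.sum_comp (Equiv.inv W) _).symm.trans ?_
  refine Finset.sum_congr rfl fun w _ => ?_
  rw [Equiv.inv_apply, inv_inv]
  have e1 : D.lam (D.om w * D.cf' j * γ * D.cf i) =
      D.lam (D.cf' j * γ * (D.cf i * D.om w)) := by
    rw [show D.om w * D.cf' j * γ * D.cf i = D.om w * (D.cf' j * γ * D.cf i) by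
      simp only [mul_assoc], D.sym]
    simp only [mul_assoc]
  have e2 : D.lam (D.om (w * v)⁻¹ * D.cf' i * δ * D.cf k) =
      D.lam (D.om w⁻¹ * D.cf' i * (δ * D.cf k * D.om v⁻¹)) := by
    rw [mul_inv, mul_comm w⁻¹ v⁻¹, D.om.map_mul,
      show D.om v⁻¹ * D.om w⁻¹ * D.cf' i * δ * D.cf k =
        D.om v⁻¹ * (D.om w⁻¹ * D.cf' i * δ * D.cf k) by simp only [mul_assoc], D.sym]
    simp only [mul_assoc]
  rw [e1, e2]

/-- the left multiplication -/
noncomputable def lmL (D : WFS R Γ W I) : Γ →ₗ[R] (I × Ω → Γ) →ₗ[R] (I × Ω → Γ) :=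
  LinearMap.mk₂ R (fun γ f p =>
    ∑ i, ∑ w, D.lam (D.om w⁻¹ * D.cf' p.1 * γ * D.cf i) • (D.om w * f (i, w⁻¹ • p.2)))
    (fun γ γ' f => by
      funext p
      simp only [Pi.add_apply, mul_add, add_mul, map_add, add_smul, Finset.sum_add_distrib])
    (fun r γ f => by
      funext p
      simp only [Pi.smul_apply, mul_smul_comm, smul_mul_assoc, map_smul, smul_assoc,
        Finset.smul_sum])
    (fun γ f f' => by
      funext p
      simp only [Pi.add_apply, mul_add, smul_add, Finset.sum_add_distrib])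
    (fun r γ f => by
      funext p
      simp only [Pi.smul_apply, mul_smul_comm, Finset.smul_sum]
      exact Finset.sum_congr rfl fun i _ => Finset.sum_congr rfl fun w _ => smul_comm _ _ _)

theorem lmL_apply (D : WFS R Γ W I) (γ : Γ) (f : I × Ω → Γ) (p : I × Ω) :
    lmL D γ f p = ∑ i, ∑ w, D.lam (D.om w⁻¹ * D.cf' p.1 * γ * D.cf i) •
      (D.om w * f (i, w⁻¹ • p.2)) := rfl

theorem lmL_one (D : WFS R Γ W I) : lmL (Ω := Ω) D 1 = 1 := by
  apply LinearMap.ext
  intro f
  funext p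
  rw [lmL_apply, Finset.sum_eq_single p.1, Finset.sum_eq_single (1 : W)]
  · have h := D.d1 p.1 1
    rw [inv_one, map_one, one_mul, mul_one] at h
    rw [inv_one, map_one, one_mul, mul_one, h, one_smul, one_mul, one_smul]
    rfl
  · intro w _ hw
    have h := D.d0 p.1 p.1 w 1 (Or.inr hw)
    rw [map_one, mul_one] at h
    rw [mul_one, h, zero_smul]
  · intro h
    exact absurd (Finset.mem_univ _) h
  · intro i _ hi
    apply Finset.sum_eq_zero
    intro w _
    have h := D.d0 p.1 i w 1 (Or.inl (Ne.symm hi))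
    rw [map_one, mul_one] at h
    rw [mul_one, h, zero_smul]
  · intro h
    exact absurd (Finset.mem_univ _) h

theorem lmL_mul (D : WFS R Γ W I) (γ δ : Γ) :
    lmL (Ω := Ω) D (γ * δ) = lmL (Ω := Ω) D γ * lmL (Ω := Ω) D δ := by
  apply LinearMap.ext
  intro f
  funext p
  rw [Module.End.mul_apply, lmL_apply, lmL_apply]
  have h1 : ∀ (i : I) (w : W), D.lam (D.om w⁻¹ * D.cf' p.1 * γ * D.cf i) •
      (D.om w * lmL D δ f (i, w⁻¹ • p.2)) =
      ∑ k, ∑ v, (D.lam (D.om w⁻¹ * D.cf' p.1 * γ * D.cf i) *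
        D.lam (D.om (w⁻¹ * v)⁻¹ * D.cf' i * δ * D.cf k)) • (D.om v * f (k, v⁻¹ • p.2)) := by
    intro i w
    rw [lmL_apply, Finset.mul_sum, Finset.smul_sum]
    refine Finset.sum_congr rfl fun k _ => ?_
    rw [Finset.mul_sum, Finset.smul_sum]
    refine (Equiv.sum_comp (Equiv.mulLeft w⁻¹) _).symm.trans ?_
    refine Finset.sum_congr rfl fun v _ => ?_
    have h2 : (w⁻¹ * v)⁻¹ • w⁻¹ • p.2 = v⁻¹ • p.2 := by
      rw [smul_smul, mul_inv_rev, inv_inv, mul_assoc, mul_inv_cancel, mul_one]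
    have h5 : D.om w * D.om (w⁻¹ * v) = D.om v := by
      rw [← D.om.map_mul, mul_inv_cancel_left]
    show D.lam (D.om w⁻¹ * D.cf' p.1 * γ * D.cf i) • (D.om w *
      (D.lam (D.om (w⁻¹ * v)⁻¹ * D.cf' i * δ * D.cf k) •
        (D.om (w⁻¹ * v) * f (k, (w⁻¹ * v)⁻¹ • w⁻¹ • p.2)))) = _
    rw [h2, mul_smul_comm, smul_smul, ← mul_assoc (D.om w), h5]
  simp only [h1]
  have h3 : ∀ (k : I) (v : W), D.lam (D.om v⁻¹ * D.cf' p.1 * (γ * δ) * D.cf k) •
      (D.om v * f (k, v⁻¹ • p.2)) = ∑ i, ∑ w,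
      (D.lam (D.om w⁻¹ * D.cf' p.1 * γ * D.cf i) *
        D.lam (D.om (w⁻¹ * v)⁻¹ * D.cf' i * δ * D.cf k)) • (D.om v * f (k, v⁻¹ • p.2)) := by
    intro k v
    rw [← key, Finset.sum_smul]
    exact Finset.sum_congr rfl fun i _ => Finset.sum_smul
  simp only [h3]
  -- exchange the sums
  have h4 : ∀ (T : I → W → I → W → Γ), ∑ k, ∑ v, ∑ i, ∑ w, T k v i w =
      ∑ i, ∑ w, ∑ k, ∑ v, T k v i w := by
    intro T
    calc ∑ k, ∑ v, ∑ i, ∑ w, T k v i w = ∑ q : I × W, ∑ r : I × W, T q.1 q.2 r.1 r.2 := by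
          simp only [Fintype.sum_prod_type]
      _ = ∑ r : I × W, ∑ q : I × W, T q.1 q.2 r.1 r.2 := Finset.sum_comm
      _ = _ := by simp only [Fintype.sum_prod_type]
  exact h4 _

/-- the right multiplication -/
noncomputable def rmR (R : Type) {Γ I Ω : Type} [CommRing R] [Ring Γ] [Algebra R Γ] :
    Γᵐᵒᵖ →ₐ[R] Module.End R (I × Ω → Γ) where
  toFun := fun g =>
    { toFun := fun f p => f p * g.unop
      map_add' := fun f f' => by
        funext p
        exact add_mul _ _ _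
      map_smul' := fun r f => by
        funext p
        exact smul_mul_assoc r (f p) g.unop }
  map_one' := by
    apply LinearMap.ext
    intro f
    funext p
    exact mul_one _
  map_mul' := fun a b => by
    apply LinearMap.ext
    intro f
    funext p
    show f p * (a * b).unop = f p * b.unop * a.unop
    rw [unop_mul, mul_assoc]
  map_zero' := by
    apply LinearMap.ext
    intro f
    funext p
    exact mul_zero _
  map_add' := fun a b => by
    apply LinearMap.ext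
    intro f
    funext p
    exact mul_add _ _ _
  commutes' := fun r => by
    apply LinearMap.ext
    intro f
    funext p
    show f p * (algebraMap R Γᵐᵒᵖ r).unop = r • f p
    rw [MulOpposite.algebraMap_apply, unop_op, ← Algebra.commutes, Algebra.smul_def]

theorem inx0 (D : WFS R Γ W I) : ∃ BX : BiM R Γ (I × Ω → Γ), IsX D Ω BX := by
  refine ⟨{ lm := AlgHom.ofLinearMap (lmL D) (lmL_one D) (lmL_mul D), rm := rmR R, comm := ?_ },
    fun γ f j ω => lmL_apply D γ f (j, ω), fun γ f x => rfl⟩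
  intro a b x
  funext p
  show lmL D a (fun q => x q * b.unop) p = lmL D a x p * b.unop
  rw [lmL_apply, lmL_apply, Finset.sum_mul]
  refine Finset.sum_congr rfl fun i _ => ?_
  rw [Finset.sum_mul]
  refine Finset.sum_congr rfl fun w _ => ?_
  simp only [smul_mul_assoc, mul_assoc]

end

theorem inx : InxStmt := by
  intro R Γ W I Ω _ _ _ _ _ _ _ _ D
  exact inx0 D

end Pool.Agent.PFD.D2b.H65
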