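import Pool.Agent.PFD.StmtsD2b

/-! Squad PFD, block D2b, row LFA: lifting of bimodule homomorphisms. -/

set_option autoImplicit false

open scoped BigOperators

namespace Pool.Agent.PFD.D2b.H65

open MulOpposite
open Pool.Agent.PFC.B1 (BiM FS)
open Pool.Agent.PFD.D2 Pool.Agent.PFD.D2b

theorem sum_smul_ex {R N ι : Type} [CommRing R] [AddCommGroup N] [Module R N] (p : R)
    (s : Finset ι) (f : ι → N) (h : ∀ i, ∃ n, f i = p • n) : ∃ n, ∑ i ∈ s, f i = p • n := by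
  choose n hn using h
  exact ⟨∑ i ∈ s, n i, by rw [Finset.smul_sum]; exact Finset.sum_congr rfl fun i _ => hn i⟩

theorem lfa (hE : EqfStmt) (hG : IngStmt) (hM : InmStmt) : LfaStmt := by
  classical
  intro R Γ W I Ω N _ _ _ _ _ _ _ _ D BX hX _ _ BN p hF g hg
  obtain ⟨ε, hε1, hε2, -⟩ := hG R Γ W I Ω D BX hX
  obtain ⟨ρ, hρ⟩ : ∃ ρ : W →* (N →ₗ[R] N), ∀ w n, ρ w n =
      BN.lm (D.om w) (BN.rm (op (D.om w⁻¹)) n) :=
    ⟨(wrp D.om BN).comp ((MonoidHom.id W).prod (MonoidHom.id W)), fun w n => rfl⟩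
  have hFP : FPl p ρ := by
    intro S n hS
    obtain ⟨m, hm1, hm2⟩ := hF (S.map ((MonoidHom.id W).prod (MonoidHom.id W))) n (by
      rintro _ ⟨s, hs, rfl⟩
      obtain ⟨x, hx⟩ := hS s hs
      exact ⟨x, by rw [← hx, hρ]; rfl⟩)
    refine ⟨m, fun s hs => ?_, hm2⟩
    rw [hρ]
    exact hm1 _ ⟨s, hs, rfl⟩
  have hm0 : ∀ (w : W) (ω : Ω), ∃ x, g (ε (w • ω)) - ρ w (g (ε ω)) = p • x := by
    intro w ω
    obtain ⟨x, hx⟩ := hg.1 (D.om w) (BX.rm (op (D.om w⁻¹)) (ε ω))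
    obtain ⟨y, hy⟩ := hg.2 (op (D.om w⁻¹)) (ε ω)
    refine ⟨x + BN.lm (D.om w) y, ?_⟩
    rw [hε1, hρ, smul_add, ← hx, ← map_smul, ← hy, map_sub]
    abel
  obtain ⟨m', hm1, hm2⟩ := hE R W N Ω ρ p hFP (fun ω => g (ε ω)) hm0
  obtain ⟨g', hg1, hg2, -⟩ := hM R Γ W I Ω N D BX hX BN m' (fun w ω => by rw [hm1, hρ])
  refine ⟨g', hg1, fun x => ?_⟩
  have h1 : g x = ∑ i, ∑ ω, g (BX.lm (D.cf i) (BX.rm (op (x (i, ω))) (ε ω))) := by
    conv_lhs => rw [← hε2 x]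
    rw [map_sum]
    exact Finset.sum_congr rfl fun i _ => map_sum g _ _
  rw [hg2, h1, ← Finset.sum_sub_distrib]
  apply sum_smul_ex
  intro i
  rw [← Finset.sum_sub_distrib]
  apply sum_smul_ex
  intro ω
  obtain ⟨a, ha⟩ := hm2 ω
  obtain ⟨b, hb⟩ := hg.2 (op (x (i, ω))) (ε ω)
  obtain ⟨c, hc⟩ := hg.1 (D.cf i) (BX.rm (op (x (i, ω))) (ε ω))
  refine ⟨BN.lm (D.cf i) (BN.rm (op (x (i, ω))) a) - BN.lm (D.cf i) b - c, ?_⟩
  rw [smul_sub, smul_sub, ← hc, ← map_smul (BN.lm (D.cf i)), ← map_smul (BN.rm (op (x (i, ω)))),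
    ← ha, ← map_smul (BN.lm (D.cf i)), ← hb, map_sub (BN.rm (op (x (i, ω)))),
    map_sub (BN.lm (D.cf i)), map_sub (BN.lm (D.cf i))]
  abel

end Pool.Agent.PFD.D2b.H65
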