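import Pool.Agent.PFD.StmtsD6b

/-! Squad PFD, block D6b, row AVE: averaging over `E`. -/

set_option autoImplicit false

open scoped BigOperators

namespace Pool.Agent.PFD.D6.H65

open Pool.Agent.PFD Pool.Agent.PFD.D6

theorem ave : AveStmt := by
  intro F V E A _ _ _ _ _ _ _ φ α n n' c q al hU hE hq hal x
  have h1 : ∀ e : E, ∑ v : V, (((Nat.card E : F)⁻¹ • al) (x * gg' α n' (v, e))) * gg α n (v, e) =
      (Nat.card E : F)⁻¹ • q x := by
    intro e
    have h2 : ∀ v : V, (((Nat.card E : F)⁻¹ • al) (x * gg' α n' (v, e))) * gg α n (v, e) =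
        ((Nat.card E : F)⁻¹ • (al (x * n' e * α v⁻¹) * α v)) * n e := by
      intro v
      show ((Nat.card E : F)⁻¹ • al (x * (n' e * α v⁻¹))) * (α v * n e) = _
      rw [← mul_assoc x, smul_mul_assoc, smul_mul_assoc, mul_assoc (al _)]
    rw [Finset.sum_congr rfl fun v _ => h2 v, ← Finset.sum_mul, ← Finset.smul_sum, hal,
      smul_mul_assoc, ← hq, mul_assoc, hU.li, mul_one]
  rw [Fintype.sum_prod_type, Finset.sum_comm, Finset.sum_congr rfl fun e _ => h1 e,
    Finset.sum_const, Finset.card_univ, ← Nat.card_eq_fintype_card, ← Nat.cast_smul_eq_nsmul F,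
    smul_smul, mul_inv_cancel₀ hE, one_smul]

end Pool.Agent.PFD.D6.H65
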