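import Pool.Agent.PFD.StmtsD5b

/-! Squad PFD, block D5b, row SPE: splitting of a free part, for the inertial group. -/

set_option autoImplicit false

open scoped BigOperators

noncomputable section

namespace Pool.Agent.PFD.H65

open Pool.Agent.PFD
open Pool.Agent.Helper51_AWC Pool.Agent.Helper79_WRA Pool.Agent.PP Pool.Agent.PP.KF
open Pool.Agent.PP.K9 Pool.Agent.PP.K9.H97 Pool.Agent.PP.H75 Pool.Agent.PP.T3 Pool.Agent.PP.T2
open Pool.Agent.PP.TB (Zd Star iz cz)

attribute [local instance] Ideal.Quotient.field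

theorem spe (edf : EdfStmt) (lke : LkeStmt) (inx : K9.InxStmt) : SpeStmt := by
  intro ℓ hℓ M _ hM G _ _ e V γ hL U₀ hU1 hU2 hst hfr
  have hT : Tg V γ ≤ Subgroup.normalizer (V : Set G) := inf_le_left
  letI cg : CommGroup V :=
    { (inferInstance : Group V) with
      mul_comm := fun a b => Subtype.ext (hL.ab a a.2 b b.2) }
  haveI : Finite (MulAut V) := Finite.of_injective (fun f : MulAut V => (f : V → V))
    (fun f g h => MulEquiv.ext (congrFun h))
  -- the automorphisms
  have hmem : ∀ t (ht : t ∈ Tg V γ), V.normalizerMonoidHom ⟨t, hT ht⟩ ∈ Ei V γ :=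
    fun t ht => ⟨⟨t, hT ht⟩, Subgroup.mem_subgroupOf.2 ht, rfl⟩
  have happ : ∀ t (ht : t ∈ Subgroup.normalizer (V : Set G)) (v : V),
      ((V.normalizerMonoidHom ⟨t, ht⟩ v : V) : G) = t * v * t⁻¹ := fun t ht v => rfl
  -- the order of `Ei`
  have hcop : ¬ ℓ ∣ Nat.card (Ei V γ) := by
    have h1 := (lke ℓ (FF M) G e V γ hL).1
    rw [← h1]
    have h2 := inx ℓ M hM G e hL.blk V hL.tp hL.ab γ hL.gam.supp hL.gam.blk hL.und
    have h3 : iz V V γ = (Subgroup.centralizer (V : Set G)).relIndex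
        (Subgroup.normalizer (V : Set G) ⊓ stabF γ) := by
      unfold iz
      rw [Subgroup.inf_relIndex_right]
      rfl
    rw [h3]
    exact h2
  obtain ⟨U', W', h1, h2, h3, h4, h5⟩ := edf ℓ V (Ei V γ) (Ei V γ).subtype Fact.out hL.tp.1 hcop
    (U₀.subgroupOf V) (by
      intro h
      apply hU2
      rw [eq_bot_iff]
      intro u hu
      have h6 : (⟨u, hU1 hu⟩ : V) ∈ U₀.subgroupOf V := Subgroup.mem_subgroupOf.2 hu
      rw [h, Subgroup.mem_bot] at h6
      rw [Subgroup.mem_bot]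
      exact congrArg Subtype.val h6)
    (by
      rintro ⟨_, ⟨t, htn⟩, ht, rfl⟩ u hu
      rw [Subgroup.mem_subgroupOf]
      exact hst t (Subgroup.mem_subgroupOf.1 ht) u (Subgroup.mem_subgroupOf.1 hu))
    (by
      rintro ⟨_, ⟨t, htn⟩, ht, rfl⟩ u hu hfix
      have h7 : t * (u : G) * t⁻¹ = u := congrArg Subtype.val hfix
      by_cases hu1 : u = 1
      · exact Or.inr hu1
      · left
        have h8 := hfr t (Subgroup.mem_subgroupOf.1 ht) u (Subgroup.mem_subgroupOf.1 hu)
          (fun h => hu1 (Subtype.ext h)) (mul_inv_eq_iff_eq_mul.1 h7)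
        apply Subtype.ext
        apply MulEquiv.ext
        intro v
        apply Subtype.ext
        show t * (v : G) * t⁻¹ = v
        have h9 : (v : G) * t = t * v := (Subgroup.mem_centralizer_iff.1 h8) v v.2
        rw [← h9, mul_inv_cancel_right])
  refine ⟨U'.map V.subtype, W'.map V.subtype, ?_⟩
  have hinj := V.subtype_injective
  refine
    { lu := Subgroup.map_subtype_le U'
      lw := Subgroup.map_subtype_le W'
      dj := ?_
      jn := ?_
      nt := ?_
      su := ?_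
      sw := ?_
      fr := ?_ }
  · rw [← Subgroup.map_inf_eq _ _ _ hinj, h2.inf_eq_bot, Subgroup.map_bot]
  · rw [← Subgroup.map_sup, h2.sup_eq_top, ← MonoidHom.range_eq_map, V.range_subtype]
  · intro h
    exact h1 ((Subgroup.map_eq_bot_iff_of_injective _ hinj).1 h)
  · rintro t ht _ ⟨u, hu, rfl⟩
    exact ⟨_, h3 ⟨_, hmem t ht⟩ u hu, rfl⟩
  · rintro t ht _ ⟨u, hu, rfl⟩
    exact ⟨_, h4 ⟨_, hmem t ht⟩ u hu, rfl⟩
  · rintro t ht _ ⟨u, hu, rfl⟩ hu1 hcomm
    have h6 : (⟨_, hmem t ht⟩ : Ei V γ) = 1 ∨ u = 1 := by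
      apply h5 _ u hu
      apply Subtype.ext
      show t * (u : G) * t⁻¹ = u
      exact mul_inv_eq_iff_eq_mul.2 hcomm
    rcases h6 with h6 | h6
    · rw [Subgroup.mem_centralizer_iff]
      intro v hv
      have h7 := congrArg (fun f : Ei V γ => (((f : MulAut V) ⟨v, hv⟩ : V) : G)) h6
      have h8 : t * v * t⁻¹ = v := h7
      exact (mul_inv_eq_iff_eq_mul.1 h8).symm
    · exact absurd (by rw [h6]; rfl) hu1

end Pool.Agent.PFD.H65
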